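import Mathlib
import Pool.Agent.Results.MP_20595b_gt.ProductFails

/-!
# A Grothendieck space none of whose powers with at least two factors is weakly Grothendieck

Let `D` be an uncountable set and let `X_U`, `X_V` be the spaces of `ProductFails`. Their disjoint
sum `Z` has a dense subset every infinite subset of which has an accumulation point, so it is
Grothendieck. The product `X_U × X_V` is a retract of `Z × Z`, so `C_p(X_U × X_V)` is a closed
subspace of `C_p(Z × Z)`, and `Z × Z` is not weakly Grothendieck. The same holds for every space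
which has `Z × Z` as a retract.
-/

set_option autoImplicit false

namespace Pool.Agent.Results.MP_20595b_gt.AllPowersFail

open Filter Topology Set
open Pool.Agent.Results.MP_20595b_gt.ProductFails

section Retract

variable {P Q : Type} [TopologicalSpace P] [TopologicalSpace Q]

/-- composition with a continuous map -/
def comp (ρ : Q → P) (hρ : Continuous ρ) (f : Cp P) : Cp Q := ⟨f.1 ∘ ρ, f.2.comp hρ⟩

theorem comp_cont (ρ : Q → P) (hρ : Continuous ρ) : Continuous (comp ρ hρ) := by
  refine Continuous.subtype_mk ?_ _
  exact continuous_pi fun y => (continuous_apply (ρ y)).comp continuous_subtype_val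

/-- g-spaces are preserved by closed subspaces -/
theorem gspace_of_closed {Z Y : Type} [TopologicalSpace Z] [TopologicalSpace Y] {e : Z → Y}
    (he : IsClosedEmbedding e) (h : IsGSpace Y) : IsGSpace Z := by
  intro A hA
  have h1 : CountablyCompactIn (e '' A) := by
    intro B hB hBi
    have h2 : B = e '' (e ⁻¹' B) := by
      rw [image_preimage_eq_of_subset (hB.trans (image_subset_range _ _))]
    have h3 : (e ⁻¹' B).Infinite := by
      intro hfin
      apply hBi
      rw [h2]
      exact hfin.image e
    obtain ⟨z, hz⟩ := hA (e ⁻¹' B) (by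
      intro a ha
      obtain ⟨a', ha', h4⟩ := hB ha
      rwa [← he.injective h4]) h3
    refine ⟨e z, ?_⟩
    rw [accPt_iff_nhds] at hz ⊢
    intro N hN
    obtain ⟨y, ⟨hy1, hy2⟩, hy3⟩ := hz (e ⁻¹' N) (he.continuous.continuousAt hN)
    exact ⟨e y, ⟨hy1, hy2⟩, fun h4 => hy3 (he.injective h4)⟩
  have h2 := h _ h1
  have h3 : closure A ⊆ e ⁻¹' closure (e '' A) :=
    closure_minimal (fun a ha => subset_closure (mem_image_of_mem e ha))
      (isClosed_closure.preimage he.continuous)
  exact (he.isCompact_preimage h2).of_isClosed_subset isClosed_closure h3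

/-- retracts of weakly Grothendieck spaces are weakly Grothendieck -/
theorem weakly_of_retract (i : P → Q) (ρ : Q → P) (hi : Continuous i) (hρ : Continuous ρ)
    (h : ∀ p, ρ (i p) = p) (hQ : IsWeaklyGrothendieck Q) : IsWeaklyGrothendieck P := by
  have h1 : Function.LeftInverse (comp i hi) (comp ρ hρ) := by
    intro f
    apply Subtype.ext
    funext p
    show f.1 (ρ (i p)) = f.1 p
    rw [h]
  exact gspace_of_closed (h1.isClosedEmbedding (comp_cont i hi) (comp_cont ρ hρ)) hQ

end Retract

section Sum

variable {A B : Type} [TopologicalSpace A] [TopologicalSpace B]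

theorem completelyRegular_sum [CompletelyRegularSpace A] [CompletelyRegularSpace B] :
    CompletelyRegularSpace (A ⊕ B) := by
  constructor
  rintro (a | b) K hK hx
  · obtain ⟨f, hf, h1, h2⟩ := CompletelyRegularSpace.completely_regular a (Sum.inl ⁻¹' K)
      (hK.preimage continuous_inl) hx
    refine ⟨Sum.elim f fun _ => 1, hf.sumElim continuous_const, h1, ?_⟩
    rintro (y | y) hy
    · exact h2 hy
    · rfl
  · obtain ⟨f, hf, h1, h2⟩ := CompletelyRegularSpace.completely_regular b (Sum.inr ⁻¹' K)
      (hK.preimage continuous_inr) hx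
    refine ⟨Sum.elim (fun _ => 1) f, continuous_const.sumElim hf, h1, ?_⟩
    rintro (y | y) hy
    · rfl
    · exact h2 hy

theorem t35_sum [T35Space A] [T35Space B] : T35Space (A ⊕ B) := by
  have := completelyRegular_sum (A := A) (B := B)
  exact {}

/-- the sum of two spaces with dense relatively countably compact subsets is Grothendieck -/
theorem grothendieck_sum [T1Space A] [T1Space B] [T1Space (A ⊕ B)] {D : Set A} {E : Set B}
    (hD : Dense D) (hE : Dense E) (hDc : CountablyCompactIn D) (hEc : CountablyCompactIn E)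
    (hne : D.Nonempty) : IsGrothendieck (A ⊕ B) := by
  refine grothendieck_of_dense (D := Sum.inl '' D ∪ Sum.inr '' E) ?_ ?_
    ((hne.image _).mono subset_union_left)
  · rintro (a | b)
    · have h1 := image_closure_subset_closure_image (continuous_inl (X := A) (Y := B)) (s := D) ⟨a, hD a, rfl⟩
      exact closure_mono (s := (Sum.inl : A → A ⊕ B) '' D) subset_union_left h1
    · have h1 := image_closure_subset_closure_image (continuous_inr (X := A) (Y := B)) (s := E) ⟨b, hE b, rfl⟩
      exact closure_mono (s := (Sum.inr : B → A ⊕ B) '' E) subset_union_right h1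
  · intro C hC hCi
    have h1 : C = Sum.inl '' (Sum.inl ⁻¹' C) ∪ Sum.inr '' (Sum.inr ⁻¹' C) := by
      ext x
      rcases x with a | b <;> simp
    have h2 : (Sum.inl ⁻¹' C : Set A).Infinite ∨ (Sum.inr ⁻¹' C : Set B).Infinite := by
      by_contra hcon
      push Not at hcon
      apply hCi
      rw [h1]
      exact (hcon.1.image _).union (hcon.2.image _)
    rcases h2 with h2 | h2
    · obtain ⟨z, hz⟩ := hDc (Sum.inl ⁻¹' C) (by
        intro a ha
        rcases hC ha with ⟨a', ha', h3⟩ | ⟨b', _, h3⟩
        · rwa [← Sum.inl_injective h3]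
        · exact absurd h3 (by simp)) h2
      refine ⟨Sum.inl z, ?_⟩
      rw [accPt_iff_nhds] at hz ⊢
      intro N hN
      obtain ⟨y, ⟨hy1, hy2⟩, hy3⟩ := hz (Sum.inl ⁻¹' N) (continuous_inl.continuousAt hN)
      exact ⟨Sum.inl y, ⟨hy1, hy2⟩, fun h4 => hy3 (Sum.inl_injective h4)⟩
    · obtain ⟨z, hz⟩ := hEc (Sum.inr ⁻¹' C) (by
        intro a ha
        rcases hC ha with ⟨a', _, h3⟩ | ⟨b', hb', h3⟩
        · exact absurd h3 (by simp)
        · rwa [← Sum.inr_injective h3]) h2
      refine ⟨Sum.inr z, ?_⟩
      rw [accPt_iff_nhds] at hz ⊢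
      intro N hN
      obtain ⟨y, ⟨hy1, hy2⟩, hy3⟩ := hz (Sum.inr ⁻¹' N) (continuous_inr.continuousAt hN)
      exact ⟨Sum.inr y, ⟨hy1, hy2⟩, fun h4 => hy3 (Sum.inr_injective h4)⟩

/-- the product of the summands is a retract of the square of the sum -/
theorem square_sum (a₀ : A) (b₀ : B) (h : IsWeaklyGrothendieck ((A ⊕ B) × (A ⊕ B))) :
    IsWeaklyGrothendieck (A × B) := by
  have hρ1 : Continuous (Sum.elim id fun _ => a₀ : A ⊕ B → A) :=
    continuous_id.sumElim continuous_const
  have hρ2 : Continuous (Sum.elim (fun _ => b₀) id : A ⊕ B → B) :=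
    continuous_const.sumElim continuous_id
  refine weakly_of_retract (fun p => (Sum.inl p.1, Sum.inr p.2))
    (fun q => (Sum.elim id (fun _ => a₀) q.1, Sum.elim (fun _ => b₀) id q.2)) ?_ ?_ ?_ h
  · exact (continuous_inl.comp continuous_fst).prodMk (continuous_inr.comp continuous_snd)
  · exact (hρ1.comp continuous_fst).prodMk (hρ2.comp continuous_snd)
  · rintro ⟨p, q⟩
    rfl

end Sum

/-- the square is a retract of every power with at least two factors -/
theorem square_of_power {Z ι : Type} [TopologicalSpace Z] {i j : ι} (hij : i ≠ j)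
    (h : IsWeaklyGrothendieck (ι → Z)) : IsWeaklyGrothendieck (Z × Z) := by
  classical
  refine weakly_of_retract (fun p k => if k = i then p.1 else p.2) (fun f => (f i, f j)) ?_ ?_ ?_ h
  · refine continuous_pi fun k => ?_
    by_cases hk : k = i
    · simp only [hk, if_true]; exact continuous_fst
    · simp only [hk, if_false]; exact continuous_snd
  · exact (continuous_apply i).prodMk (continuous_apply j)
  · rintro ⟨p, q⟩
    simp [Ne.symm hij]

/-- **Powers of Grothendieck spaces.** For every uncountable set `D` there is a Tychonoff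
Grothendieck space `Z`, in which `D` embeds as a discrete subspace, such that no power of `Z` with
at least two factors is weakly Grothendieck; in particular `Z × Z` is not weakly Grothendieck (and
hence not Grothendieck). -/
theorem result (D : Type) [Uncountable D] :
    ∃ (Z : Type) (_ : TopologicalSpace Z), T35Space Z ∧ IsGrothendieck Z ∧
      (∃ e : D → Z, Function.Injective e ∧ ∀ d, ∃ O : Set Z, IsOpen O ∧ O ∩ range e = {e d}) ∧
      ¬ IsWeaklyGrothendieck (Z × Z) ∧
      ∀ (ι : Type) (i j : ι), i ≠ j → ¬ IsWeaklyGrothendieck (ι → Z) := by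
  obtain ⟨V, hV, hUV⟩ := exists_V
  have hU : ∀ w, ({w} : Set ℕ) ∉ hyperfilter ℕ := fun w hw =>
    notMem_hyperfilter_of_finite (finite_singleton w) hw
  have hUV' : ∀ (f : ℕ → D) (g : T → D), Function.Injective f → Function.Injective g →
      (hyperfilter ℕ).map f ≠ V.map g := by
    intro f g _ hg he
    have h1 := congrArg (Ultrafilter.map (Function.invFun g)) he
    rw [Ultrafilter.map_map, Ultrafilter.map_map, Function.invFun_comp hg, Ultrafilter.map_id] at h1
    exact hUV _ h1
  have hw := not_weakly (D := D) hU hV hUV'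
  obtain ⟨d₀⟩ : Nonempty D := inferInstance
  have hsq : ¬ IsWeaklyGrothendieck ((XSet D (hyperfilter ℕ) ⊕ XSet D V) ×
      (XSet D (hyperfilter ℕ) ⊕ XSet D V)) := fun h => hw (square_sum (pt _ d₀) (pt _ d₀) h)
  refine ⟨XSet D (hyperfilter ℕ) ⊕ XSet D V, inferInstance, t35_sum, ?_, ?_, hsq,
    fun ι i j hij h => hsq (square_of_power hij h)⟩
  · exact grothendieck_sum (dense_Dset _) (dense_Dset _) (cc_Dset hU) (cc_Dset hV)
      ⟨pt _ d₀, d₀, rfl⟩
  · have hinj : ∀ d d' : D, emb (pure d) ⟨{d'}, countable_singleton d'⟩ = true → d = d' := by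
      intro d d' h
      exact emb_pure.1 h
    refine ⟨fun d => Sum.inl (pt _ d), ?_, fun d => ?_⟩
    · intro d d' h
      have h1 : (pt (hyperfilter ℕ) d).1 = (pt (hyperfilter ℕ) d').1 :=
        congrArg Subtype.val (Sum.inl_injective h)
      have h2 : emb (pure d) ⟨{d'}, countable_singleton d'⟩ = true := by
        have h3 : emb (pure d) = emb (pure d') := h1
        rw [h3]
        exact emb_pure.2 rfl
      exact hinj _ _ h2
    · refine ⟨Sum.inl '' {x | x.1 ⟨{d}, countable_singleton d⟩ = true}, ?_, ?_⟩
      · refine isOpenMap_inl _ ?_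
        have hc : Continuous fun x : XSet D (hyperfilter ℕ) =>
            x.1 ⟨{d}, countable_singleton d⟩ :=
          (continuous_apply _).comp continuous_subtype_val
        exact (isOpen_discrete ({true} : Set Bool)).preimage hc
      · ext z
        constructor
        · rintro ⟨⟨x, hx, rfl⟩, ⟨d', hd'⟩⟩
          have h1 : pt (hyperfilter ℕ) d' = x := Sum.inl_injective hd'
          have h2 : d' = d := by
            apply hinj
            have h3 : x.1 ⟨{d}, countable_singleton d⟩ = true := hx
            rw [← h1] at h3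
            exact h3
          rw [← h1, h2]
          rfl
        · rintro rfl
          exact ⟨⟨_, emb_pure.2 rfl, rfl⟩, d, rfl⟩

end Pool.Agent.Results.MP_20595b_gt.AllPowersFail
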