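import Mathlib
import Pool.Agent.Y20.GC.Ultra
import Pool.Agent.Y20.GC.Multi

/-!
# Products of Grothendieck spaces fail to be weakly Grothendieck for the first time at `n + 1` factors
-/

set_option autoImplicit false

open Set Filter Topology

namespace Pool.Agent.Results.MP_20595b_gt.ManyFactors

/-- `C_p(X)`: the continuous real functions on `X` with the topology of pointwise convergence
(the subspace topology from the product `X → ℝ`). -/
abbrev Cp (X : Type) [TopologicalSpace X] : Type := {f : X → ℝ // Continuous f}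

/-- `A` is countably compact in `Z`: every infinite subset of `A` has an accumulation point in
`Z`. -/
def CountablyCompactIn {Z : Type} [TopologicalSpace Z] (A : Set Z) : Prop :=
  ∀ B ⊆ A, B.Infinite → ∃ z : Z, AccPt z (𝓟 B)

/-- `Z` is a g-space: the closure of `A` is compact for each `A` that is countably compact in `Z`. -/
def IsGSpace (Z : Type) [TopologicalSpace Z] : Prop :=
  ∀ A : Set Z, CountablyCompactIn A → IsCompact (closure A)

/-- `X` is weakly Grothendieck: `C_p(X)` is a g-space. -/
def IsWeaklyGrothendieck (X : Type) [TopologicalSpace X] : Prop := IsGSpace (Cp X)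

/-- `X` is Grothendieck: every subspace of `C_p(X)` is a g-space. -/
def IsGrothendieck (X : Type) [TopologicalSpace X] : Prop := ∀ S : Set (Cp X), IsGSpace S

/-- composition with `π : V → W` as a map `C_p(W) → C_p(V)` -/
def pull {V W : Type} [TopologicalSpace V] [TopologicalSpace W] (π : V → W)
    (hπ : Continuous π) (f : Cp W) : Cp V := ⟨fun x => f.1 (π x), f.2.comp hπ⟩

theorem pull_continuous {V W : Type} [TopologicalSpace V] [TopologicalSpace W]
    (π : V → W) (hπ : Continuous π) : Continuous (pull π hπ) := by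
  have h : Continuous (fun (f : Cp W) (x : V) => f.1 (π x)) :=
    continuous_pi fun x => (continuous_apply (π x)).comp continuous_subtype_val
  exact h.subtype_mk _

theorem cc_image {Z W : Type} [TopologicalSpace Z] [T1Space Z]
    [TopologicalSpace W] {A : Set Z} (hA : CountablyCompactIn A) {f : Z → W}
    (hf : Continuous f) : CountablyCompactIn (f '' A) := by
  have h : ∀ w : ℕ → Z, (∀ n, w n ∈ A) → ∃ z, MapClusterPt z atTop w := fun w hw =>
    MP_8a2df8_gt.WeakProductCompact.exists_mapClusterPt hA w hw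
  refine MP_8a2df8_gt.WeakProductCompact.countablyCompactIn_of_seq fun w hw => ?_
  choose a ha haw using hw
  obtain ⟨z, hz⟩ := h a ha
  refine ⟨f z, ?_⟩
  have h1 := hz.continuousAt_comp (f := f) hf.continuousAt
  have h2 : f ∘ a = w := funext haw
  rwa [h2] at h1

/-- a retract of a weakly Grothendieck space is weakly Grothendieck -/
theorem weakly_retract {V W : Type} [TopologicalSpace V] [TopologicalSpace W] {r : V → W}
    (hr : Continuous r) {s : W → V} (hs : Continuous s) (h : ∀ x, r (s x) = x)
    (hV : IsWeaklyGrothendieck V) : IsWeaklyGrothendieck W := by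
  intro A hA
  have h1 : CountablyCompactIn (pull r hr '' A) := cc_image hA (pull_continuous r hr)
  have h2 : IsCompact (pull s hs '' closure (pull r hr '' A)) :=
    (hV _ h1).image (pull_continuous s hs)
  have h3 : closure A ⊆ pull s hs '' closure (pull r hr '' A) := by
    refine closure_minimal ?_ h2.isClosed
    intro a ha
    refine ⟨pull r hr a, subset_closure (mem_image_of_mem _ ha), ?_⟩
    apply Subtype.ext
    funext x
    show a.1 (r (s x)) = a.1 x
    rw [h]
  exact h2.of_isClosed_subset isClosed_closure h3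

/-- the ultrafilters attached to the `n`-element sets containing `i` -/
def fam (u : ℕ → Ultrafilter ℕ) (n i : ℕ) : Set (Ultrafilter ℕ) :=
  {U | ∃ s : Finset ℕ, s.card = n ∧ i ∈ s ∧ U = u (Encodable.encode s)}

/-- the `i`-th space -/
abbrev Sp (u : ℕ → Ultrafilter ℕ) (n i : ℕ) : Type := Pool.Agent.Y20.GC.XF ℝ (fam u n i)

theorem fam_nonpr {u : ℕ → Ultrafilter ℕ} (hu : ∀ n w, ({w} : Set ℕ) ∉ u n) (n i : ℕ) :
    ∀ U ∈ fam u n i, ∀ w, ({w} : Set ℕ) ∉ U := by
  rintro U ⟨s, -, -, rfl⟩
  exact hu _

theorem groth {u : ℕ → Ultrafilter ℕ} (hu : ∀ n w, ({w} : Set ℕ) ∉ u n) {n : ℕ} {J : Type}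
    [Countable J] (φ : J → ℕ) (hφ : (range φ).encard ≤ n) :
    IsGrothendieck (∀ j, Sp u n (φ j)) := by
  have hfin : (range φ).Finite := Set.finite_of_encard_le_coe hφ
  obtain ⟨s, hs, hsn⟩ := Infinite.exists_superset_card_eq hfin.toFinset n (by
    rw [← Set.ncard_eq_toFinset_card _ hfin]
    have : ((range φ).ncard : ℕ∞) ≤ n := by rwa [hfin.cast_ncard_eq]
    exact_mod_cast this)
  exact Pool.Agent.Y20.GC.grothendieck_prod (𝒰 := fun j => fam u n (φ j))
    (hu (Encodable.encode s)) fun j =>
    ⟨s, hsn, hs (hfin.mem_toFinset.2 ⟨j, rfl⟩), rfl⟩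

theorem fail_inj {u : ℕ → Ultrafilter ℕ} (hu : ∀ n w, ({w} : Set ℕ) ∉ u n)
    (hu2 : ∀ m n, m < n → ∀ h : ℕ → ℕ, (u m).map h ≠ u n) {n : ℕ} {J : Type} [Finite J]
    [Nonempty J] (φ : J → ℕ) (hφ : (n : ℕ∞) < (range φ).encard) :
    ¬ IsWeaklyGrothendieck (∀ j, Sp u n (φ j)) := by
  refine Pool.Agent.Y20.GC.not_weaklyF (fun j => fam u n (φ j))
    (fun j => fam_nonpr hu n (φ j)) ?_
  intro x hx
  obtain ⟨j₀⟩ : Nonempty J := inferInstance
  rcases hx j₀ with h0 | hd | ⟨U, ⟨s, hsn, hs, rfl⟩, f, hf, rfl⟩
  · exact Or.inl h0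
  · exact Or.inr hd
  · exfalso
    have hfc : (range f).Countable := countable_range f
    have hfm : range f ∈ (u (Encodable.encode s)).map f := by
      rw [Ultrafilter.mem_map]
      exact Filter.mem_of_superset Filter.univ_mem fun x _ => ⟨x, rfl⟩
    have hall : ∀ j, φ j ∈ s := by
      intro j
      rcases hx j with h0 | ⟨d, hd⟩ | ⟨U, ⟨s', hsn', hs', rfl⟩, f', hf', he⟩
      · exfalso
        have h1 := MP_20595b_gt.ProductFails.emb_eq_true (A := ⟨range f, hfc⟩).2 hfm
        rw [h0] at h1
        exact absurd h1 (by simp)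
      · exfalso
        have h1 := MP_20595b_gt.ProductFails.emb_inj hd hfc hfm
        refine Pool.Agent.Y20.GC.map_notMem (hu _) hf d ?_
        rw [h1]
        exact Ultrafilter.mem_pure.2 rfl
      · have h1 := MP_20595b_gt.ProductFails.emb_inj he hfc hfm
        by_cases hss : Encodable.encode s = Encodable.encode s'
        · rw [Encodable.encode_injective hss]
          exact hs'
        · exact absurd h1 (Pool.Agent.Y20.GC.map_ne hu2 hss hf hf')
    have h1 : range φ ⊆ (s : Set ℕ) := by
      rintro _ ⟨j, rfl⟩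
      exact hall j
    have h2 := encard_le_encard h1
    rw [encard_coe_eq_coe_finsetCard, hsn] at h2
    exact absurd hφ (not_lt.2 h2)

theorem fail {u : ℕ → Ultrafilter ℕ} (hu : ∀ n w, ({w} : Set ℕ) ∉ u n)
    (hu2 : ∀ m n, m < n → ∀ h : ℕ → ℕ, (u m).map h ≠ u n) {n : ℕ} {J : Type}
    (φ : J → ℕ) (hφ : (n : ℕ∞) < (range φ).encard) :
    ¬ IsWeaklyGrothendieck (∀ j, Sp u n (φ j)) := by
  classical
  intro hG
  obtain ⟨t, ht, htn⟩ := exists_subset_encard_eq (k := ((n + 1 : ℕ) : ℕ∞))
    (s := range φ) (by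
      have := Order.add_one_le_of_lt hφ
      exact_mod_cast this)
  have hsurj : SurjOn φ univ t := by
    intro x hx
    obtain ⟨j, rfl⟩ := ht hx
    exact ⟨j, mem_univ j, rfl⟩
  obtain ⟨F, -, hF⟩ := hsurj.exists_bijOn_subset
  have htfin : t.Finite := Set.finite_of_encard_eq_coe htn
  have hFfin : F.Finite := hF.finite_iff_finite.2 htfin
  have : Finite F := hFfin
  have hrange : range (fun j : F => φ j.1) = t := by
    rw [← hF.image_eq]
    ext x
    simp
  have htne : t.Nonempty := by
    rw [← encard_pos, htn]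
    exact_mod_cast Nat.succ_pos n
  have : Nonempty F := by
    obtain ⟨x, hx⟩ := htne
    rw [← hF.image_eq] at hx
    obtain ⟨j, hj, -⟩ := hx
    exact ⟨⟨j, hj⟩⟩
  have h1 : ¬ IsWeaklyGrothendieck (∀ j : F, Sp u n (φ j.1)) :=
    fail_inj hu hu2 (fun j : F => φ j.1) (by
      rw [hrange, htn]
      exact_mod_cast Nat.lt_succ_self n)
  apply h1
  let r : (∀ j, Sp u n (φ j)) → ∀ j : F, Sp u n (φ j.1) := fun p j => p j.1
  let s : (∀ j : F, Sp u n (φ j.1)) → ∀ j, Sp u n (φ j) := fun q j =>
    if h : j ∈ F then q ⟨j, h⟩ else Pool.Agent.Y20.GC.ptF _ 0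
  have hr : Continuous r := continuous_pi fun j => continuous_apply j.1
  have hs : Continuous s := by
    refine continuous_pi fun j => ?_
    by_cases h : j ∈ F
    · have : (fun q : ∀ j : F, Sp u n (φ j.1) => s q j) = fun q => q ⟨j, h⟩ := by
        funext q
        simp only [s, dif_pos h]
      rw [this]
      exact continuous_apply _
    · have : (fun q : ∀ j : F, Sp u n (φ j.1) => s q j) = fun q =>
          Pool.Agent.Y20.GC.ptF _ 0 := by
        funext q
        simp only [s, dif_neg h]
      rw [this]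
      exact continuous_const
  refine weakly_retract hr hs (fun q => ?_) hG
  funext j
  simp only [r, s, dif_pos j.2]

/-- **Theorem.** For every `n ≥ 1` there is a sequence of Tychonoff spaces `X 0, X 1, …` such that a
product of countably many of them (with repetitions) is Grothendieck if and only if it is weakly
Grothendieck, if and only if at most `n` different spaces of the sequence occur in it. So there are
`n + 1` spaces whose product is not weakly Grothendieck although each product of at most `n` of them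
is Grothendieck; for `n = 1`, infinitely many Grothendieck spaces such that no product of two
different ones is weakly Grothendieck. -/
theorem result :
    (∀ n : ℕ, 1 ≤ n → ∃ (X : ℕ → Type) (_ : ∀ i, TopologicalSpace (X i)),
      (∀ i, T35Space (X i)) ∧ ∀ (J : Type) [Countable J] (φ : J → ℕ),
        (IsGrothendieck (∀ j, X (φ j)) ↔ (range φ).encard ≤ n) ∧
        (IsWeaklyGrothendieck (∀ j, X (φ j)) ↔ (range φ).encard ≤ n)) ∧
    ∃ (X Y : Type) (_ : TopologicalSpace X) (_ : TopologicalSpace Y),
      T35Space X ∧ T35Space Y ∧ IsGrothendieck X ∧ IsGrothendieck Y ∧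
        ¬ IsWeaklyGrothendieck (X × Y) ∧ ¬ IsGrothendieck (X × Y) := by
  have hw : ∀ (X : Type) [TopologicalSpace X], IsGrothendieck X → IsWeaklyGrothendieck X :=
    fun X _ h => MP_20595b_gt.ProductFails.IsGrothendieck.isWeaklyGrothendieck h
  refine ⟨fun n _ => ?_, ?_⟩
  · obtain ⟨u, hu, hu2⟩ := Pool.Agent.Y20.GC.exists_seq
    refine ⟨Sp u n, fun i => inferInstance, fun i => inferInstance, fun J _ φ => ?_⟩
    have h1 : (range φ).encard ≤ n → IsGrothendieck (∀ j, Sp u n (φ j)) := groth hu φ
    have h2 : IsWeaklyGrothendieck (∀ j, Sp u n (φ j)) → (range φ).encard ≤ n := fun h =>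
      not_lt.1 fun hlt => fail hu hu2 φ hlt h
    exact ⟨⟨fun h => h2 (hw _ h), h1⟩, ⟨h2, fun h => hw _ (h1 h)⟩⟩
  · obtain ⟨X, Y, tX, tY, h1, h2, h3, h4, h5⟩ := MP_20595b_gt.ProductFails.result
    exact ⟨X, Y, tX, tY, h1, h2, h3, h4, h5, fun h => h5 (hw _ h)⟩

end Pool.Agent.Results.MP_20595b_gt.ManyFactors
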